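import Pool.Agent.helper82.SC.SpecA

/-!
# sp: Cardy part, module WPB: the black arm
-/

namespace Pool.Agent.helper82.SC

open Relation

theorem WPB_con_symm {W : Set V} {u v : V} (h : Con W u v) : Con W v u := by
  obtain ⟨hu, h⟩ := h
  have key : v ∈ W ∧ ReflTransGen (fun a b => TAdj a b ∧ b ∈ W) v u := by
    induction h with
    | refl => exact ⟨hu, ReflTransGen.refl⟩
    | tail hab hbc ih =>
      exact ⟨hbc.2, ReflTransGen.head ⟨hbc.1.symm, ih.1⟩ ih.2⟩
  exact key

/-- the first exit of a path from the domain -/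
theorem WPB_exit (U : Set V) (W : Set V) {u v : V} (hu : u ∈ U) (hv : v ∉ U) (h : Con W u v) :
    ∃ w z, Con (U ∩ W) u w ∧ TAdj w z ∧ z ∉ U ∧ z ∈ W := by
  obtain ⟨huW, h⟩ := h
  have key : Con (U ∩ W) u v ∨ ∃ w z, Con (U ∩ W) u w ∧ TAdj w z ∧ z ∉ U ∧ z ∈ W := by
    clear hv
    induction h with
    | refl => exact Or.inl ⟨⟨hu, huW⟩, ReflTransGen.refl⟩
    | @tail b c hab hbc ih =>
      rcases ih with ih | ih
      · by_cases hc : c ∈ U
        · exact Or.inl ⟨ih.1, ih.2.tail ⟨hbc.1, hc, hbc.2⟩⟩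
        · exact Or.inr ⟨b, c, ih, hbc.1, hc, hbc.2⟩
      · exact Or.inr ih
  rcases key with h | h
  · have := (WPB_con_symm h).1.1
    exact (hv this).elim
  · exact h

/-- the exterior colouring which is white on the sector `j` -/
def WPB_beta (D : Dom) (j : Fin 3) (v : V) : ZMod 2 := if D.sec v = j then 1 else 0

theorem WPB_zmod (x : ZMod 2) : x + x = 0 := CharTwo.add_self_eq_zero x

theorem WPB_bdry (hCO : CO_stmt) (D : Dom) (j : Fin 3) : Bdry D (WPB_beta D j) (D.a j) := by
  obtain ⟨-, hCO2, -, hinj⟩ := hCO D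
  refine ⟨(hCO2 j).1, D.first j, D.second j, ?_⟩
  intro x hx h1 h2
  by_cases hs : D.sec (S x.1 x.2) = D.sec (S x.1 (x.2 + 1))
  · have hne : x ≠ D.a j := by
      rintro rfl
      rw [D.sec_first, D.sec_second] at hs
      revert hs
      fin_cases j <;> decide
    have hw : D.wall x = 0 := by rw [Dom.wall, if_pos hs]
    rw [hw, if_neg hne, WPB_beta, WPB_beta, hs, WPB_zmod, add_zero]
  · have hw : D.wall x = 1 := by rw [Dom.wall, if_neg hs]
    have h3 : S x.1 (x.2 + 2) ∈ D.U := by
      obtain ⟨d, hd⟩ := hx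
      have hcases : d = x.2 ∨ d = x.2 + 1 ∨ d = x.2 + 2 := by
        generalize x.2 = e
        fin_cases d <;> fin_cases e <;> decide
      rcases hcases with rfl | rfl | rfl
      · exact (h1 hd).elim
      · exact (h2 hd).elim
      · exact hd
    obtain ⟨m, hm⟩ := D.only x.1 x.2 h3 h1 h2 hs
    have hxm : x = D.a m := hm
    subst hxm
    rw [hw, WPB_beta, WPB_beta, D.sec_first, D.sec_second]
    by_cases hmj : m = j
    · subst hmj
      rw [if_pos rfl]
      fin_cases m <;> decide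
    · have : D.a m ≠ D.a j := fun h => hmj (hinj h)
      rw [if_neg this]
      revert hmj
      fin_cases m <;> fin_cases j <;> decide

theorem WPB (hCA : CA_stmt) (hCO : CO_stmt) (hWS : WS_stmt) : WPB_stmt := by
  intro D j π hπ
  have hB := hCA D (WPB_beta D j) (D.a j) (WPB_bdry hCO D j)
  obtain ⟨-, hCO2, -, -⟩ := hCO D
  have hfin : {s : Finset V | s ⊆ D.U ∧ ArmB D j π s}.Finite :=
    (D.U.powerset.finite_toSet).subset (fun s hs => by
      simp only [Finset.coe_powerset, Set.mem_preimage, Set.mem_powerset_iff, Finset.coe_subset]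
      exact hs.1)
  have hsub : {ψ | ψ ∈ D.Conf (D.a j) ∧ ∃ x, D.Bf π x.1 ∧ D.Cn ψ (star (D.a (j + 1))) x} ⊆
      psix D (WPB_beta D j) '' {s : Finset V | s ⊆ D.U ∧ ArmB D j π s} := by
    rintro ψ ⟨hψ, x, hx, hcn⟩
    obtain ⟨s, hs, rfl⟩ := hB.surjOn hψ
    refine ⟨s, ⟨hs, ?_⟩, rfl⟩
    set c : V → ZMod 2 := cx D (WPB_beta D j) s with hc
    have hψc : ∀ x : Dart, D.FU x.1 → psix D (WPB_beta D j) s x =
        c (S x.1 x.2) + c (S x.1 (x.2 + 1)) := by
      intro x hx
      rw [psix, if_pos hx]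
    have hne : star (D.a (j + 1)) ≠ x := by
      rintro rfl
      exact (hCO2 (j + 1)).2.1 hx.1
    -- the last step of the connection shows that `x` is a wall
    have hψx : psix D (WPB_beta D j) s x = 1 := by
      rcases ReflTransGen.cases_tail hcn with h | ⟨y, _, hy⟩
      · exact (hne h.symm).elim
      · exact hy.2.1
    rw [hψc x hx.1] at hψx
    -- the black end point of `x`
    obtain ⟨v0, hv0, hv0c⟩ : ∃ v, (v = S x.1 x.2 ∨ v = S x.1 (x.2 + 1)) ∧ c v = 0 := by
      by_cases h : c (S x.1 x.2) = 0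
      · exact ⟨_, Or.inl rfl, h⟩
      · refine ⟨_, Or.inr rfl, ?_⟩
        have h1 : ∀ a b : ZMod 2, a ≠ 0 → a + b = 1 → b = 0 := by decide
        exact h1 _ _ h hψx
    -- the black end point of the corner
    have hu0 : c (S (D.a (j + 1)).1 (D.a (j + 1)).2) = 0 := by
      rw [hc, cx, if_neg (D.first (j + 1)), WPB_beta, D.sec_first, if_neg]
      fin_cases j <;> decide
    have hcon := hWS D _ c 0 (star (D.a (j + 1))) x hψc hne hcn
      (S (D.a (j + 1)).1 (D.a (j + 1)).2) v0 (Or.inr (S_tw' _ _).symm) hv0 hu0 hv0c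
    have hv0U : v0 ∈ D.U := by
      by_contra hv
      have h1 : D.sec v0 = j := by
        rcases hv0 with h | h
        · rw [h] at hv ⊢; exact hπ _ _ hx hv
        · rw [h] at hv ⊢; exact hπ _ _ hx hv
      rw [hc, cx, if_neg hv, WPB_beta, if_pos h1] at hv0c
      exact one_ne_zero hv0c
    obtain ⟨w, z, hw1, hw2, hw3, hw4⟩ := WPB_exit (D.U : Set V) {w | c w = 0}
      (by exact_mod_cast hv0U) (by exact_mod_cast D.first (j + 1)) (WPB_con_symm hcon)
    refine ⟨v0, w, ?_, ?_, z, by exact_mod_cast hw3, hw2, ?_⟩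
    · have hset : (D.U : Set V) ∩ {w | c w = 0} = (D.U : Set V) \ (s : Set V) := by
        ext y
        simp only [Set.mem_inter_iff, Finset.mem_coe, Set.mem_ofPred_eq, Set.mem_sdiff]
        refine and_congr_right fun hy => ?_
        rw [hc, cx, if_pos hy]
        by_cases hys : y ∈ s
        · simp [hys]
        · simp [hys]
      rw [← hset]
      exact hw1
    · rcases hv0 with h | h
      · exact ⟨x.1, x.2, hx, h.symm⟩
      · exact ⟨x.1, x.2 + 1, hx, h.symm⟩
    · intro hsec
      have h1 : c z = 0 := hw4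
      rw [hc, cx, if_neg (by exact_mod_cast hw3), WPB_beta, if_pos hsec] at h1
      exact one_ne_zero h1
  rw [Dom.Mx, prob]
  apply div_le_div_of_nonneg_right _ (by positivity)
  have h1 := (Set.ncard_le_ncard hsub (hfin.image _)).trans (Set.ncard_image_le hfin)
  exact_mod_cast h1

end Pool.Agent.helper82.SC
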